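import Pool.Agent.H94.CB.H13.SM.Grad
import Pool.Agent.H94.CB.M54
import Pool.Agent.H94.CB.M62

/-!
# Charts of the affine cone of a smooth projective variety

PROOF.  `X l ∉ P` as `x l ≠ 0`, so `coordFun P l ≠ 0` (`coordFun_ne_zero_iff`).  Let `w = (x l)⁻¹ • x`: a
point of the cone (`cone_smul`) with `w l = 1`, so `w ∈ pts a`, `a i = ratio P i l` (`mem_pts_iff`).
`a` generates the field (`adjoin_ratio`).  By `exists_indep` (at `w`) there are `f : Fin (N - n) → _` in
`P`, by `indep_snoc` the family `f, X l - 1` has independent gradients at `w` and all of its members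
vanish at `a` (`gen_eq_zero_iff` for homogeneous components; or: `aeval a (f j) = 0` because
of `Homog P`; prove it as in `mem_pts_iff`).  `(N - n + 1) + n = N + 1` by `trdeg_le`.  Let `I, τ` be the
chart of `exists_chart`, and `σ u = x l • τ u`.  Then `σ 0 = x l • w = x`; `σ u` is in the cone and
`σ u l = x l * τ u l = x l` (`mem_pts_iff`); `σ u (I k) = x l * (w (I k) + u k) = x (I k) + x l * u k`.
For `y` near `x` in the cone: `y l ≠ 0`, `y' = (y l)⁻¹ • y` is in `pts a` and near `w`, so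
`y' = τ (fun k => y' (I k) - w (I k))`, and `y = y l • y' = (y l / x l) • σ (...)`, where
`y' (I k) - w (I k) = y (I k) / y l - x (I k) / x l`.
Last clause: for a form `Q` of degree `d` not in `P`, `aeval a Q = gen P l Q ≠ 0` and
`eval (σ u) Q = x l ^ d * eval (τ u) Q`.
-/

open MvPolynomial Topology
open Pool.Agent.H17GT (coordFun functionField)
open Pool.Agent.H17LG.Variety (FunField ratio)
open Pool.Agent.H62.FC (Homog)

noncomputable section

namespace Pool.Agent.H13.SM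

attribute [-instance] ProperSMul.toContinuousSMul

variable {N : ℕ} {P : Ideal (MvPolynomial (Fin (N + 1)) ℂ)}

private theorem Cone_aeval_mem [P.IsPrime] (hP : Homog P) {l : Fin (N + 1)} (h : coordFun P l ≠ 0)
    {Q : MvPolynomial (Fin (N + 1)) ℂ} (hQ : Q ∈ P) : aeval (fun i => ratio P i l) Q = 0 := by
  rw [← MvPolynomial.sum_homogeneousComponent Q, map_sum]
  refine Finset.sum_eq_zero fun d _ => ?_
  exact (Pool.Agent.H17R.gen_eq_zero_iff h (MvPolynomial.homogeneousComponent_isHomogeneous d Q)).2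
    (hP Q hQ d)

private theorem Cone_eval_smul {Q : MvPolynomial (Fin (N + 1)) ℂ} {d : ℕ} (hQ : Q.IsHomogeneous d)
    (c : ℂ) (y : Fin (N + 1) → ℂ) : eval (c • y) Q = c ^ d * eval y Q := by
  have h1 := Pool.Agent.H92.GT.Proj.aeval_scale hQ (c := c) (x := y)
  have h2 : ∀ z : Fin (N + 1) → ℂ, aeval z Q = eval z Q := fun z => by
    rw [MvPolynomial.aeval_eq_eval]
  rw [h2, h2] at h1
  exact h1

theorem exists_coneChart [P.IsPrime] (hP : Homog P) {n : ℕ} {z : Fin n → FunField P}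
    (hz : IsTranscendenceBasis ℂ z)
    (hsm : ∀ y : Fin (N + 1) → ℂ, y ≠ 0 → (∀ Q ∈ P, eval y Q = 0) →
      Module.finrank ℂ (conTan P y) ≤ n + 1)
    {x : Fin (N + 1) → ℂ} (hx : ∀ Q ∈ P, eval x Q = 0) {l : Fin (N + 1)} (hl : x l ≠ 0) :
    ∃ (I : Fin n → Fin (N + 1)) (σ : (Fin n → ℂ) → Fin (N + 1) → ℂ),
      AnalyticAt ℂ σ 0 ∧ σ 0 = x ∧
      (∀ᶠ u in 𝓝 0, (∀ Q ∈ P, eval (σ u) Q = 0) ∧ σ u l = x l ∧
        ∀ k, σ u (I k) = x (I k) + x l * u k) ∧
      (∀ᶠ y in 𝓝 x, (∀ Q ∈ P, eval y Q = 0) →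
        y = (y l / x l) • σ (fun k => y (I k) / y l - x (I k) / x l)) ∧
      ∀ (d : ℕ) (Q : MvPolynomial (Fin (N + 1)) ℂ), Q.IsHomogeneous d → Q ∉ P →
        ¬ ∀ᶠ u in 𝓝 0, eval (σ u) Q = 0 := by
  have hXl : (X l : MvPolynomial (Fin (N + 1)) ℂ) ∉ P := by
    intro h
    have h1 := hx _ h
    rw [eval_X] at h1
    exact hl h1
  have hcf : coordFun P l ≠ 0 := Pool.Agent.H17R.coordFun_ne_zero_iff.2 hXl
  obtain ⟨w, hw⟩ : ∃ w : Fin (N + 1) → ℂ, w = (x l)⁻¹ • x := ⟨_, rfl⟩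
  have hwP : ∀ Q ∈ P, eval w Q = 0 := by
    rw [hw]
    exact cone_smul hP hx _
  have hwl : w l = 1 := by
    rw [hw, Pi.smul_apply, smul_eq_mul, inv_mul_cancel₀ hl]
  have hwk : ∀ i, x l * w i = x i := by
    intro i
    rw [hw, Pi.smul_apply, smul_eq_mul, mul_inv_cancel_left₀ hl]
  have hwx : x l • w = x := by
    rw [hw, smul_inv_smul₀ hl]
  have hw0 : w ≠ 0 := by
    intro h
    rw [h, Pi.zero_apply] at hwl
    exact zero_ne_one hwl
  have hwp : w ∈ pts (fun i => ratio P i l) := (mem_pts_iff hP hcf).2 ⟨hwl, hwP⟩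
  obtain ⟨f, hf, hli⟩ := exists_indep (hsm w hw0 hwP)
  have hli' := indep_snoc hP hwP hwl hf hli
  have hnN : n ≤ N := trdeg_le hcf hz
  have hf' : ∀ j, aeval (fun i => ratio P i l)
      ((Fin.snoc f (X l - 1) : Fin (N - n + 1) → MvPolynomial (Fin (N + 1)) ℂ) j) = 0 := by
    intro j
    refine Fin.lastCases ?_ (fun j => ?_) j
    · rw [Fin.snoc_last, map_sub, aeval_X, map_one, Pool.Agent.H17R.ratio_self hcf, sub_self]
    · rw [Fin.snoc_castSucc]
      exact Cone_aeval_mem hP hcf (hf j)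
  obtain ⟨I, τ, hτa, hτ0, hτ1, hτ2, hτ3⟩ := exists_chart
    (Pool.Agent.H17R.adjoin_ratio hcf) hz (c := N - n + 1) (by rw [Fintype.card_fin]; omega)
    hf' hwp hli'
  refine ⟨I, fun u => x l • τ u, ?_, ?_, ?_, ?_, ?_⟩
  · exact (analyticAt_const (v := x l)).smul hτa
  · simp only [hτ0]
    exact hwx
  · filter_upwards [hτ1] with u hu
    obtain ⟨h1, h2⟩ := hu
    obtain ⟨h3, h4⟩ := (mem_pts_iff hP hcf).1 h1
    refine ⟨cone_smul hP h4 _, ?_, fun k => ?_⟩
    · rw [Pi.smul_apply, smul_eq_mul, h3, mul_one]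
    · rw [Pi.smul_apply, smul_eq_mul, h2 k, mul_add, hwk]
  · have hc : ContinuousAt (fun y : Fin (N + 1) → ℂ => (y l)⁻¹ • y) x := by
      have h1 : ContinuousAt (fun y : Fin (N + 1) → ℂ => y l) x :=
        (continuous_apply l).continuousAt
      exact (h1.inv₀ hl).smul continuousAt_id
    have hc' : Filter.Tendsto (fun y : Fin (N + 1) → ℂ => (y l)⁻¹ • y) (𝓝 x) (𝓝 w) := by
      rw [hw]
      exact hc
    have hne : ∀ᶠ y in 𝓝 x, (y : Fin (N + 1) → ℂ) l ≠ 0 :=
      (continuous_apply l).continuousAt.eventually_ne hl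
    filter_upwards [hc'.eventually hτ2, hne] with y hy hyl hyP
    have h1 : (y l)⁻¹ • y ∈ pts (fun i => ratio P i l) := by
      rw [mem_pts_iff hP hcf]
      refine ⟨?_, cone_smul hP hyP _⟩
      rw [Pi.smul_apply, smul_eq_mul, inv_mul_cancel₀ hyl]
    have h2 := hy h1
    have h3 : (fun k => ((y l)⁻¹ • y) (I k) - w (I k)) =
        fun k => y (I k) / y l - x (I k) / x l := by
      funext k
      rw [hw, Pi.smul_apply, Pi.smul_apply, smul_eq_mul, smul_eq_mul, div_eq_inv_mul,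
        div_eq_inv_mul]
    rw [h3] at h2
    rw [← h2, smul_smul, smul_smul]
    have h4 : y l / x l * x l * (y l)⁻¹ = 1 := by
      field_simp
    rw [h4, one_smul]
  · intro d Q hQ hQP hev
    have h1 : aeval (fun i => ratio P i l) Q ≠ 0 := fun h =>
      hQP ((Pool.Agent.H17R.gen_eq_zero_iff hcf hQ).1 h)
    refine hτ3 Q h1 ?_
    filter_upwards [hev] with u hu
    rw [Cone_eval_smul hQ] at hu
    exact (mul_eq_zero.1 hu).resolve_left (pow_ne_zero _ hl)

end Pool.Agent.H13.SM
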