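import Pool.Agent.H94.CB.M41
import Pool.Agent.H94.CB.M55

/-!
# The affine part of the cone of a homogeneous prime ideal

PROOF of `mem_pts_iff`.  Write `a i = ratio P i l`, so `aeval a Q = gen P l Q` and `a l = 1`
(`ratio_self`).
(→) `aeval a (X l - 1) = 0` gives `w l = 1`.  For `Q ∈ P` its components `Q_d` are in `P` (`Homog P`), so
`gen P l Q_d = 0` (`gen_eq_zero_iff`) and `aeval a Q = ∑ aeval a Q_d = 0`; hence `eval w Q = 0`.
(←) Let `aeval a R = 0`, `D = R.totalDegree` and `R' = ∑ d ∈ range (D + 1), X l ^ (D - d) * R_d`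
(`R_d = homogeneousComponent d R`), homogeneous of degree `D`.  Since `a l = 1`,
`gen P l R' = ∑ aeval a R_d = aeval a R = 0`, so `R' ∈ P` (`gen_eq_zero_iff`), and
`0 = eval w R' = ∑ w l ^ (D - d) * eval w R_d = eval w R` since `w l = 1`
(`MvPolynomial.sum_homogeneousComponent`).

PROOF of `euler`.  For the component `Q_d ∈ P`: `∑ x i * eval x (pderiv i Q_d) = d * eval x Q_d = 0`
(`IsHomogeneous.sum_X_mul_pderiv`); sum over `d`.
-/

open MvPolynomial
open Pool.Agent.H17GT (coordFun functionField)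
open Pool.Agent.H17LG.Variety (FunField ratio)
open Pool.Agent.H62.FC (Homog)

noncomputable section

namespace Pool.Agent.H13.SM

attribute [-instance] ProperSMul.toContinuousSMul

variable {N : ℕ} {P : Ideal (MvPolynomial (Fin (N + 1)) ℂ)}

private theorem hg_smul {d : ℕ} {Q : MvPolynomial (Fin (N + 1)) ℂ} (hQ : Q.IsHomogeneous d) (c : ℂ)
    (x : Fin (N + 1) → ℂ) : eval (c • x) Q = c ^ d * eval x Q := by
  rw [eval_eq', eval_eq', Finset.mul_sum]
  refine Finset.sum_congr rfl fun m hm => ?_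
  have h1 : ∏ i, (c • x) i ^ m i = c ^ d * ∏ i, x i ^ m i := by
    simp only [Pi.smul_apply, smul_eq_mul, mul_pow, Finset.prod_mul_distrib]
    rw [Finset.prod_pow_eq_pow_sum]
    have h2 := hQ (mem_support_iff.1 hm)
    rw [Finsupp.weight_apply, Finsupp.sum_fintype _ _ (by simp)] at h2
    simp only [Pi.one_apply, smul_eq_mul, mul_one] at h2
    rw [h2]
  rw [h1]
  ring

theorem mem_pts_iff [P.IsPrime] (hP : Homog P) {l : Fin (N + 1)} (h : coordFun P l ≠ 0)
    {w : Fin (N + 1) → ℂ} :
    w ∈ pts (fun i => ratio P i l) ↔ w l = 1 ∧ ∀ Q ∈ P, eval w Q = 0 := by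
  have hll := Pool.Agent.H17R.ratio_self h
  constructor
  · intro hw
    refine ⟨?_, fun Q hQ => hw Q ?_⟩
    · have h1 := hw (X l - 1) (by rw [map_sub, aeval_X, map_one, hll, sub_self])
      rw [map_sub, eval_X, map_one, sub_eq_zero] at h1
      exact h1
    · rw [← sum_homogeneousComponent Q, map_sum]
      exact Finset.sum_eq_zero fun d _ =>
        (Pool.Agent.H17R.gen_eq_zero_iff h (homogeneousComponent_isHomogeneous d Q)).2 (hP Q hQ d)
  · rintro ⟨hl, hw⟩ R hR
    have h1 : ∀ {B : Type} [CommRing B] [Algebra ℂ B] (φ : MvPolynomial (Fin (N + 1)) ℂ →ₐ[ℂ] B)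
        (_ : φ (X l) = 1), φ (∑ d ∈ Finset.range (R.totalDegree + 1),
          X l ^ (R.totalDegree - d) * homogeneousComponent d R) = φ R := by
      intro B _ _ φ hφ
      conv_rhs => rw [← sum_homogeneousComponent R]
      rw [map_sum, map_sum]
      refine Finset.sum_congr rfl fun d _ => ?_
      rw [map_mul, map_pow, hφ, one_pow, one_mul]
    have h2 : (∑ d ∈ Finset.range (R.totalDegree + 1),
        X l ^ (R.totalDegree - d) * homogeneousComponent d R).IsHomogeneous R.totalDegree := by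
      refine IsHomogeneous.sum _ _ _ fun d hd => ?_
      have h3 := ((isHomogeneous_X ℂ l).pow (R.totalDegree - d)).mul
        (homogeneousComponent_isHomogeneous d R)
      have h4 := Finset.mem_range.1 hd
      rwa [one_mul, Nat.sub_add_cancel (by omega)] at h3
    have h3 := h1 (aeval fun i => ratio P i l) (by rw [aeval_X, hll])
    have h4 := hw _ ((Pool.Agent.H17R.gen_eq_zero_iff h h2).1 (by
      unfold Pool.Agent.H17R.gen
      rw [h3, hR]))
    have h5 := h1 (aeval w : MvPolynomial (Fin (N + 1)) ℂ →ₐ[ℂ] ℂ) (by rw [aeval_X, hl])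
    rw [← coe_aeval_eq_eval] at h4
    rw [← coe_aeval_eq_eval]
    exact h5.symm.trans h4

theorem euler (hP : Homog P) {x : Fin (N + 1) → ℂ} (hx : ∀ Q ∈ P, eval x Q = 0)
    {Q : MvPolynomial (Fin (N + 1)) ℂ} (hQ : Q ∈ P) : ∑ i, x i * eval x (pderiv i Q) = 0 := by
  have h1 : ∀ d, ∑ i, x i * eval x (pderiv i (homogeneousComponent d Q)) = 0 := by
    intro d
    have h2 := congrArg (eval x) (homogeneousComponent_isHomogeneous d Q).sum_X_mul_pderiv
    rw [map_sum, map_nsmul, hx _ (hP Q hQ d), smul_zero] at h2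
    simpa only [map_mul, eval_X] using h2
  rw [← sum_homogeneousComponent Q]
  simp only [map_sum, Finset.mul_sum]
  rw [Finset.sum_comm]
  exact Finset.sum_eq_zero fun d _ => h1 d

/-- The affine cone of `P` is a cone. -/
theorem cone_smul (hP : Homog P) {x : Fin (N + 1) → ℂ} (hx : ∀ Q ∈ P, eval x Q = 0) (c : ℂ) :
    ∀ Q ∈ P, eval (c • x) Q = 0 := by
  intro Q hQ
  rw [← sum_homogeneousComponent Q, map_sum]
  refine Finset.sum_eq_zero fun d _ => ?_
  rw [hg_smul (homogeneousComponent_isHomogeneous d Q), hx _ (hP Q hQ d), mul_zero]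

end Pool.Agent.H13.SM
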